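import Mathlib

/-!
# A diagonal hyperbolicity preserver of infinite order that is not monotone

The polynomials `B_n` with `(1 + x²) B_n'' = n (n - 1) B_n`, `deg B_n = n`, form an admissible basis.  The
operator `T` with `T B_0 = 2 B_0`, `T B_1 = B_1` and `T B_n = 0` for `n ≥ 2`, that is
`T p = 2 Re p(i) + x Im p(i)`, preserves hyperbolicity and is of infinite order, but it is not monotone.
-/

set_option autoImplicit false

open Polynomial

namespace Pool.Agent.Results.MP_f79668_an.DiagonalNotMonotone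

/-- `p` is not the zero polynomial and all its complex zeros are real. -/
def RealRooted (p : ℝ[X]) : Prop := ∀ z : ℂ, aeval z p = 0 → z.im = 0

/-- `T` is a hyperbolicity preserver: `T p` has only real zeros whenever `p` has only real zeros (here
neither `p` nor `T p` is the zero polynomial). -/
def HyperbolicityPreserver (T : ℝ[X] →ₗ[ℝ] ℝ[X]) : Prop := ∀ p, RealRooted p → RealRooted (T p)

/-- `T = ∑ Q_k D^k` -/
def IsSymbol (T : ℝ[X] →ₗ[ℝ] ℝ[X]) (Q : ℕ → ℝ[X]) : Prop :=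
  ∀ p : ℝ[X], T p = ∑ k ∈ Finset.range (p.natDegree + 1), Q k * derivative^[k] p

/-- In the representation `T = ∑ Q_k D^k` infinitely many `Q_k` do not vanish. -/
def InfiniteOrder (T : ℝ[X] →ₗ[ℝ] ℝ[X]) : Prop := ∃ Q, IsSymbol T Q ∧ {k | Q k ≠ 0}.Infinite

/-- In the representation `T = ∑ Q_k D^k` one has `deg Q_k ≤ deg Q_{k+1}` whenever `Q_k ≠ 0`
(`deg 0 = -∞`). -/
def IsMonotone (T : ℝ[X] →ₗ[ℝ] ℝ[X]) : Prop :=
  ∃ Q, IsSymbol T Q ∧ ∀ k, Q k ≠ 0 → (Q k).degree ≤ (Q (k + 1)).degree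

/-- `T` is diagonal with respect to `B`. -/
def Diagonal (T : ℝ[X] →ₗ[ℝ] ℝ[X]) (B : ℕ → ℝ[X]) : Prop :=
  ∃ γ : ℕ → ℝ, ∀ k, T (B k) = γ k • B k

/-- `B` is an admissible basis: `deg B_k = k` and, for some `M ≥ 1` and fixed real polynomials
`a_1, …, a_M` with `a_M ≠ 0`, each `B_k` satisfies `a_0(k) y + ∑_{j=1}^M a_j y^{(j)} = 0` with a real
constant `a_0(k)`. -/
def Admissible (B : ℕ → ℝ[X]) : Prop :=
  (∀ k, (B k).degree = k) ∧
  ∃ (M : ℕ) (a : ℕ → ℝ[X]) (a₀ : ℕ → ℝ), 1 ≤ M ∧ a M ≠ 0 ∧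
    ∀ k, C (a₀ k) * B k + ∑ j ∈ Finset.Icc 1 M, a j * derivative^[j] (B k) = 0

/-! ### Existence and uniqueness of the representation -/

theorem iterate_X_pow_self (n : ℕ) : derivative^[n] (X ^ n : ℝ[X]) = C (n.factorial : ℝ) := by
  rw [iterate_derivative_X_pow_eq_natCast_mul]
  simp [Nat.descFactorial_self]

theorem symbol_unique (T : ℝ[X] →ₗ[ℝ] ℝ[X]) (Q Q' : ℕ → ℝ[X]) (h : IsSymbol T Q)
    (h' : IsSymbol T Q') : Q = Q' := by
  funext n
  induction n using Nat.strong_induction_on with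
  | _ n ih =>
    have h1 := h (X ^ n)
    have h2 := h' (X ^ n)
    rw [natDegree_X_pow, Finset.sum_range_succ, iterate_X_pow_self] at h1 h2
    have h3 : ∑ k ∈ Finset.range n, Q k * derivative^[k] (X ^ n : ℝ[X]) =
        ∑ k ∈ Finset.range n, Q' k * derivative^[k] (X ^ n : ℝ[X]) :=
      Finset.sum_congr rfl fun k hk => by rw [ih k (Finset.mem_range.1 hk)]
    rw [h1, h3] at h2
    have h4 := add_left_cancel h2
    have h5 : (C (n.factorial : ℝ)) ≠ 0 := by
      rw [Ne, C_eq_zero]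
      exact_mod_cast n.factorial_ne_zero
    exact mul_right_cancel₀ h5 h4

/-- the coefficients of the representation -/
noncomputable def symb (T : ℝ[X] →ₗ[ℝ] ℝ[X]) : ℕ → ℝ[X]
  | n => C ((n.factorial : ℝ)⁻¹) *
      (T (X ^ n) - ∑ k : Fin n, symb T k.1 * derivative^[k.1] (X ^ n : ℝ[X]))

theorem symb_X_pow (T : ℝ[X] →ₗ[ℝ] ℝ[X]) (n : ℕ) :
    T (X ^ n) = ∑ k ∈ Finset.range (n + 1), symb T k * derivative^[k] (X ^ n : ℝ[X]) := by
  rw [Finset.sum_range_succ, iterate_X_pow_self]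
  conv_rhs => rw [symb]
  rw [Fin.sum_univ_eq_sum_range (fun k => symb T k * derivative^[k] (X ^ n : ℝ[X])) n]
  have h : C ((n.factorial : ℝ)⁻¹) * C (n.factorial : ℝ) = 1 := by
    rw [← C_mul, inv_mul_cancel₀ (by exact_mod_cast n.factorial_ne_zero), C_1]
  linear_combination (-(T (X ^ n)) + ∑ k ∈ Finset.range n, symb T k * derivative^[k] (X ^ n)) * h

theorem sum_extend (Q : ℕ → ℝ[X]) (p : ℝ[X]) (N : ℕ) (hN : p.natDegree < N) :
    ∑ k ∈ Finset.range (p.natDegree + 1), Q k * derivative^[k] p =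
      ∑ k ∈ Finset.range N, Q k * derivative^[k] p := by
  apply Finset.sum_subset
  · intro k hk
    rw [Finset.mem_range] at hk ⊢
    omega
  · intro k _ hk
    rw [Finset.mem_range] at hk
    rw [iterate_derivative_eq_zero (by omega), mul_zero]

theorem isSymbol_symb (T : ℝ[X] →ₗ[ℝ] ℝ[X]) : IsSymbol T (symb T) := by
  intro p
  have h : ∀ N (q : ℝ[X]), q.natDegree < N →
      T q = ∑ k ∈ Finset.range N, symb T k * derivative^[k] q := by
    intro N q hq
    have h1 : ∀ n < N, T (X ^ n) = ∑ k ∈ Finset.range N, symb T k * derivative^[k] (X ^ n) := by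
      intro n hn
      rw [symb_X_pow]
      have := sum_extend (symb T) (X ^ n) N (by rwa [natDegree_X_pow])
      rwa [natDegree_X_pow] at this
    have h2 : q = ∑ n ∈ Finset.range N, q.coeff n • (X ^ n : ℝ[X]) := by
      conv_lhs => rw [q.as_sum_range' N hq]
      exact Finset.sum_congr rfl fun n _ => by rw [← C_mul_X_pow_eq_monomial, smul_eq_C_mul]
    rw [h2, map_sum]
    simp only [map_smul, iterate_derivative_sum, iterate_derivative_smul, Finset.mul_sum]
    rw [Finset.sum_comm]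
    apply Finset.sum_congr rfl
    intro n hn
    rw [h1 n (Finset.mem_range.1 hn), Finset.smul_sum]
    exact Finset.sum_congr rfl fun k _ => by rw [mul_smul_comm]
  exact h _ p (Nat.lt_succ_self _)

theorem symbol_existsUnique (T : ℝ[X] →ₗ[ℝ] ℝ[X]) : ∃! Q, IsSymbol T Q :=
  ⟨symb T, isSymbol_symb T, fun _ hQ => symbol_unique T _ _ hQ (isSymbol_symb T)⟩

/-! ### The admissible basis -/

theorem deriv_two (m : ℕ) (h : 2 ≤ m) :
    derivative^[2] (X ^ m : ℝ[X]) = C ((m : ℝ) * (m - 1)) * X ^ (m - 2) := by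
  rw [iterate_derivative_X_pow_eq_natCast_mul, ← C_eq_natCast]
  congr 2
  obtain ⟨k, rfl⟩ := Nat.exists_eq_add_of_le' h
  simp [Nat.descFactorial]
  ring

theorem exists_lower (n : ℕ) (m : ℕ) (hm : m < n) (hn : 2 ≤ n) :
    ∃ u : ℝ[X], u.natDegree ≤ m ∧
      (X ^ 2 + 1) * derivative^[2] u - C ((n : ℝ) * (n - 1)) * u = X ^ m := by
  induction m using Nat.strong_induction_on with
  | _ m ih =>
    have hne : ((m : ℝ) * (m - 1) - (n : ℝ) * (n - 1)) ≠ 0 := by
      have h1 : (m : ℝ) + 1 ≤ n := by exact_mod_cast hm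
      have h2 : (2 : ℝ) ≤ n := by exact_mod_cast hn
      have h3 : (0 : ℝ) ≤ m := by positivity
      nlinarith
    rcases Nat.lt_or_ge m 2 with h | h
    · refine ⟨C ((m : ℝ) * (m - 1) - (n : ℝ) * (n - 1))⁻¹ * X ^ m, ?_, ?_⟩
      · exact (natDegree_C_mul_X_pow_le _ _)
      · have h0 : derivative^[2] (C ((m : ℝ) * (m - 1) - (n : ℝ) * (n - 1))⁻¹ * X ^ m) = 0 := by
          apply iterate_derivative_eq_zero
          exact lt_of_le_of_lt (natDegree_C_mul_X_pow_le _ _) h
        have hm0 : (m : ℝ) * (m - 1) = 0 := by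
          interval_cases m <;> norm_num
        rw [h0, hm0, mul_zero, zero_sub, zero_sub, ← mul_assoc, ← C_mul, ← neg_mul, ← C_neg]
        rw [hm0, zero_sub] at hne
        rw [show -((n : ℝ) * (n - 1) * (-((n : ℝ) * (n - 1)))⁻¹) = 1 by
          rw [← neg_mul, mul_inv_cancel₀ hne], C_1, one_mul]
    · obtain ⟨u, hu, hu'⟩ := ih (m - 2) (by omega) (by omega)
      refine ⟨C ((m : ℝ) * (m - 1) - (n : ℝ) * (n - 1))⁻¹ * (X ^ m - C ((m : ℝ) * (m - 1)) * u),
        ?_, ?_⟩
      · refine (natDegree_C_mul_le _ _).trans ((natDegree_sub_le _ _).trans ?_)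
        rw [natDegree_X_pow]
        exact max_le le_rfl ((natDegree_C_mul_le _ _).trans (by omega))
      · have hX : derivative^[2] (X ^ m : ℝ[X]) = C ((m : ℝ) * (m - 1)) * X ^ (m - 2) :=
          deriv_two m h
        have hpow : (X ^ m : ℝ[X]) = X ^ 2 * X ^ (m - 2) := by
          rw [← pow_add]
          congr 1
          omega
        rw [iterate_derivative_C_mul, iterate_derivative_sub, iterate_derivative_C_mul, hX]
        have hc : C ((m : ℝ) * (m - 1) - (n : ℝ) * (n - 1))⁻¹ *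
            C ((m : ℝ) * (m - 1) - (n : ℝ) * (n - 1)) = 1 := by
          rw [← C_mul, inv_mul_cancel₀ hne, C_1]
        rw [C_sub] at hc
        rw [hpow]
        linear_combination (X ^ 2 * X ^ (m - 2)) * hc -
          C ((m : ℝ) * (m - 1) - (n : ℝ) * (n - 1))⁻¹ * C ((m : ℝ) * (m - 1)) * hu'

theorem exists_eigen (n : ℕ) : ∃ B : ℝ[X], B.degree = n ∧
    C (-((n : ℝ) * (n - 1))) * B + (X ^ 2 + 1) * derivative^[2] B = 0 ∧
    (n = 0 → B = 1) ∧ (n = 1 → B = X) := by
  rcases Nat.lt_or_ge n 2 with h | h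
  · refine ⟨X ^ n, degree_X_pow n, ?_, ?_, ?_⟩
    · have h0 : derivative^[2] (X ^ n : ℝ[X]) = 0 := by
        apply iterate_derivative_eq_zero
        rwa [natDegree_X_pow]
      have hn0 : (n : ℝ) * (n - 1) = 0 := by
        interval_cases n <;> norm_num
      rw [h0, hn0]
      simp
    · rintro rfl
      simp
    · rintro rfl
      simp
  · obtain ⟨u, hu, hu'⟩ := exists_lower n (n - 2) (by omega) h
    refine ⟨X ^ n - C ((n : ℝ) * (n - 1)) * u, ?_, ?_, fun h0 => by omega, fun h0 => by omega⟩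
    · rw [degree_sub_eq_left_of_degree_lt, degree_X_pow]
      rw [degree_X_pow]
      refine lt_of_le_of_lt degree_le_natDegree ?_
      have := (natDegree_C_mul_le ((n : ℝ) * (n - 1)) u).trans hu
      exact_mod_cast lt_of_le_of_lt this (by omega)
    · have hX : derivative^[2] (X ^ n : ℝ[X]) = C ((n : ℝ) * (n - 1)) * X ^ (n - 2) :=
        deriv_two n h
      have hpow : (X ^ n : ℝ[X]) = X ^ 2 * X ^ (n - 2) := by
        rw [← pow_add]
        congr 1
        omega
      rw [iterate_derivative_sub, iterate_derivative_C_mul, hX, hpow, C_neg]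
      linear_combination -C ((n : ℝ) * (n - 1)) * hu'

/-- the basis -/
noncomputable def B (n : ℕ) : ℝ[X] := (exists_eigen n).choose

theorem B_degree (n : ℕ) : (B n).degree = n := (exists_eigen n).choose_spec.1

theorem B_eq (n : ℕ) :
    C (-((n : ℝ) * (n - 1))) * B n + (X ^ 2 + 1) * derivative^[2] (B n) = 0 :=
  (exists_eigen n).choose_spec.2.1

theorem B_zero : B 0 = 1 := (exists_eigen 0).choose_spec.2.2.1 rfl

theorem B_one : B 1 = X := (exists_eigen 1).choose_spec.2.2.2 rfl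

theorem admissible_B : Admissible B := by
  refine ⟨B_degree, 2, fun j => if j = 2 then X ^ 2 + 1 else 0, fun k => -((k : ℝ) * (k - 1)),
    by norm_num, ?_, ?_⟩
  · simp only [if_true]
    intro h
    have := congrArg (eval 0) h
    simp at this
  · intro k
    rw [show Finset.Icc 1 2 = {1, 2} by decide, Finset.sum_pair (by norm_num)]
    simpa using B_eq k

/-! ### The operator -/

theorem monic_q : (X ^ 2 + 1 : ℝ[X]).Monic := by
  have : (X ^ 2 + 1 : ℝ[X]) = X ^ 2 + C 1 := by simp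
  rw [this]
  exact monic_X_pow_add_C 1 (by norm_num)

/-- `T p = 2 a + b x` where `a + b x` is the remainder of `p` modulo `x² + 1`. -/
noncomputable def T : ℝ[X] →ₗ[ℝ] ℝ[X] :=
  ((monomial 0 ∘ₗ ((2 : ℝ) • lcoeff ℝ 0)) + (monomial 1 ∘ₗ lcoeff ℝ 1)) ∘ₗ
    modByMonicHom (X ^ 2 + 1 : ℝ[X])

theorem T_apply (p : ℝ[X]) : T p = C (2 * (p %ₘ (X ^ 2 + 1)).coeff 0) +
    C ((p %ₘ (X ^ 2 + 1)).coeff 1) * X := by
  simp [T, modByMonicHom_apply, ← C_mul_X_pow_eq_monomial]

theorem mod_eq (p : ℝ[X]) : p %ₘ (X ^ 2 + 1) =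
    C ((p %ₘ (X ^ 2 + 1)).coeff 0) + C ((p %ₘ (X ^ 2 + 1)).coeff 1) * X := by
  have h2 : (X ^ 2 + 1 : ℝ[X]).natDegree = 2 := by
    have : (X ^ 2 + 1 : ℝ[X]) = X ^ 2 + C 1 := by simp
    rw [this]
    exact natDegree_X_pow_add_C
  have h : (p %ₘ (X ^ 2 + 1)).natDegree ≤ 1 := by
    have h1 := natDegree_modByMonic_lt p monic_q (by
      intro h
      rw [h, natDegree_one] at h2
      omega)
    rw [h2] at h1
    omega
  conv_lhs => rw [eq_X_add_C_of_natDegree_le_one h]
  rw [add_comm]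

theorem preserver_T : HyperbolicityPreserver T := by
  intro p hp z hz
  rw [T_apply] at hz
  set a := (p %ₘ (X ^ 2 + 1)).coeff 0 with ha
  set b := (p %ₘ (X ^ 2 + 1)).coeff 1 with hb
  have hz' : (2 * (a : ℂ)) + (b : ℂ) * z = 0 := by simpa using hz
  have him := congrArg Complex.im hz'
  have hre := congrArg Complex.re hz'
  simp at him hre
  rcases him with hb0 | hz0
  · exfalso
    rw [hb0] at hre
    have ha0 : a = 0 := by linarith
    have h0 : p %ₘ (X ^ 2 + 1) = 0 := by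
      rw [mod_eq, ← ha, ← hb, ha0, hb0]
      simp
    have hdvd : (X ^ 2 + 1 : ℝ[X]) ∣ p := (modByMonic_eq_zero_iff_dvd monic_q).1 h0
    obtain ⟨g, hg⟩ := hdvd
    have h1 : aeval Complex.I p = 0 := by
      rw [hg, map_mul]
      simp
    have := hp _ h1
    simp at this
  · exact hz0

theorem T_one : T 1 = C 2 := by
  rw [T_apply]
  have h : (1 : ℝ[X]) %ₘ (X ^ 2 + 1) = 1 := by
    rw [modByMonic_eq_self_iff monic_q]
    have : (X ^ 2 + 1 : ℝ[X]) = X ^ 2 + C 1 := by simp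
    rw [this, degree_X_pow_add_C (by norm_num) 1, degree_one]
    norm_num
  rw [h]
  simp [coeff_one]

theorem T_X : T X = X := by
  rw [T_apply]
  have h : (X : ℝ[X]) %ₘ (X ^ 2 + 1) = X := by
    rw [modByMonic_eq_self_iff monic_q]
    have : (X ^ 2 + 1 : ℝ[X]) = X ^ 2 + C 1 := by simp
    rw [this, degree_X_pow_add_C (by norm_num) 1, degree_X]
    norm_num
  rw [h]
  simp

theorem T_add_mul (p g : ℝ[X]) : T (p + (X ^ 2 + 1) * g) = T p := by
  rw [T_apply, T_apply, add_modByMonic]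
  have : ((X ^ 2 + 1) * g) %ₘ (X ^ 2 + 1 : ℝ[X]) = 0 :=
    (modByMonic_eq_zero_iff_dvd monic_q).2 (dvd_mul_right _ _)
  rw [this, add_zero]

theorem T_X_sq : T (X ^ 2) = C (-2) := by
  have h : (X ^ 2 : ℝ[X]) = (-1 : ℝ) • (1 : ℝ[X]) + (X ^ 2 + 1) * 1 := by
    simp
  rw [h, T_add_mul, map_smul, T_one, smul_C]
  norm_num

theorem T_X_four_pow (m : ℕ) : T (X ^ (4 * m)) = C 2 := by
  have h : (X ^ 2 + 1 : ℝ[X]) ∣ X ^ (4 * m) - 1 := by
    have h1 : (X ^ 4 - 1 : ℝ[X]) ∣ (X ^ 4) ^ m - 1 ^ m := sub_dvd_pow_sub_pow _ _ _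
    rw [one_pow, ← pow_mul] at h1
    exact (Dvd.intro (X ^ 2 - 1) (by ring)).trans h1
  obtain ⟨g, hg⟩ := h
  rw [show (X ^ (4 * m) : ℝ[X]) = 1 + (X ^ 2 + 1) * g by rw [← hg]; ring, T_add_mul, T_one]

theorem diagonal_T : Diagonal T B := by
  refine ⟨fun k => if k = 0 then 2 else if k = 1 then 1 else 0, fun k => ?_⟩
  rcases k with _ | _ | k
  · simp [B_zero, T_one, smul_eq_C_mul]
  · simp [B_one, T_X]
  · have h1 : ((k : ℝ) + 2) * ((k : ℝ) + 2 - 1) ≠ 0 := by
      rw [show ((k : ℝ) + 2) * ((k : ℝ) + 2 - 1) = ((k : ℝ) + 2) * ((k : ℝ) + 1) by ring]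
      positivity
    have h2 := B_eq (k + 2)
    push_cast at h2
    have h3 : (X ^ 2 + 1 : ℝ[X]) ∣ B (k + 2) := by
      refine ⟨C (((k : ℝ) + 2) * ((k : ℝ) + 2 - 1))⁻¹ * derivative^[2] (B (k + 2)), ?_⟩
      have h4 : C (((k : ℝ) + 2) * ((k : ℝ) + 2 - 1))⁻¹ *
          C (((k : ℝ) + 2) * ((k : ℝ) + 2 - 1)) = 1 := by
        rw [← C_mul, inv_mul_cancel₀ h1, C_1]
      rw [C_neg] at h2
      linear_combination (-(B (k + 2))) * h4 -
        C (((k : ℝ) + 2) * ((k : ℝ) + 2 - 1))⁻¹ * h2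
    rw [T_apply, (modByMonic_eq_zero_iff_dvd monic_q).2 h3]
    simp

theorem infinite_T : InfiniteOrder T := by
  refine ⟨symb T, isSymbol_symb T, ?_⟩
  intro hfin
  obtain ⟨K, hK⟩ := hfin.bddAbove
  have hK' : ∀ k, K < k → symb T k = 0 := by
    intro k hk
    by_contra h
    exact absurd (hK h) (not_le.2 hk)
  have h1 := isSymbol_symb T (X ^ (4 * (K + 1)))
  rw [T_X_four_pow] at h1
  have h2 := congrArg (eval 0) h1
  rw [eval_C, eval_finsetSum] at h2
  rw [Finset.sum_eq_zero] at h2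
  · norm_num at h2
  · intro k _
    rcases Nat.lt_or_ge K k with h | h
    · rw [hK' k h]
      simp
    · rw [iterate_derivative_X_pow_eq_natCast_mul]
      simp only [eval_mul, eval_pow, eval_X]
      rw [zero_pow (by omega)]
      ring

theorem not_monotone_T : ¬ IsMonotone T := by
  rintro ⟨Q, hQ, hm⟩
  have e0 : Q 0 = C 2 := by
    have h := hQ 1
    rw [T_one, natDegree_one] at h
    simpa using h.symm
  have e1 : Q 1 = -X := by
    have h := hQ X
    rw [T_X, natDegree_X, Finset.sum_range_succ, Finset.sum_range_succ, Finset.sum_range_zero] at h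
    simp only [Function.iterate_zero, Function.iterate_succ, Function.comp, id,
      derivative_X, e0, zero_add, mul_one] at h
    have hC : (C 2 : ℝ[X]) = 2 := map_ofNat C 2
    rw [hC] at h
    linear_combination -h
  have e2 : Q 2 = -1 := by
    have h := hQ (X ^ 2)
    rw [T_X_sq, natDegree_X_pow, Finset.sum_range_succ, Finset.sum_range_succ,
      Finset.sum_range_succ, Finset.sum_range_zero, iterate_X_pow_self] at h
    simp only [Function.iterate_zero, Function.iterate_succ, Function.comp, id,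
      derivative_X_pow, e0, e1, zero_add] at h
    have hC : (C 2 : ℝ[X]) = 2 := map_ofNat C 2
    norm_num at h
    rw [hC] at h
    have h2 : (2 : ℝ[X]) * (Q 2 + 1) = 0 := by
      linear_combination -h
    rcases mul_eq_zero.1 h2 with h3 | h3
    · exact absurd h3 two_ne_zero
    · linear_combination h3
  have h := hm 1 (by rw [e1]; simp)
  rw [e1, e2, degree_neg, degree_neg, degree_X, degree_one] at h
  exact absurd h (by norm_num)

/-- **A diagonal hyperbolicity preserver that is not monotone.**  Every linear operator on `ℝ[x]` has a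
unique representation `∑ Q_k D^k`; and there are an admissible basis `B` and an operator `T`, diagonal
with respect to `B`, that is a hyperbolicity preserver of infinite order but is not monotone. -/
theorem result : (∀ T : ℝ[X] →ₗ[ℝ] ℝ[X], ∃! Q, IsSymbol T Q) ∧
    ∃ (B : ℕ → ℝ[X]) (T : ℝ[X] →ₗ[ℝ] ℝ[X]),
      Admissible B ∧ Diagonal T B ∧ HyperbolicityPreserver T ∧ InfiniteOrder T ∧ ¬ IsMonotone T :=
  ⟨symbol_existsUnique, B, T, admissible_B, diagonal_T, preserver_T, infinite_T, not_monotone_T⟩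

end Pool.Agent.Results.MP_f79668_an.DiagonalNotMonotone
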